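import Pool.Agent.TRH.Fin
import Pool.Agent.TRG.ResA

/-! # [TRH] the final statement -/

set_option autoImplicit false

open NumberField IsDedekindDomain XTR XTS
open scoped Classical

namespace XTB

open TRB

/-- the statement over `L(√-7)` for admissible fields -/
theorem good_sqrt {L : Type} [Field L] [NumberField L] (hL : Admissible L) {M : Type} [Field M]
    [NumberField M] [Algebra L M] (hM : Module.finrank L M = 2) (hr : ∃ r : M, r ^ 2 = -7)
    {E : WeierstrassCurve M} (hE : GoodCurve E) :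
    ModTwo E ∧ (∃ (S : Finset (HeightOneSpectrum (𝓞 M))) (p : HeightOneSpectrum (𝓞 M) → 𝓞 M),
      (∀ P, P ∈ S ↔ (7 : 𝓞 M) ∉ P.asIdeal ∧ ¬ XTS.GoodReduction E P) ∧ ∀ P ∈ S, Generates P (p P)) ∧
    ∀ (S : Finset (HeightOneSpectrum (𝓞 M))) (p : HeightOneSpectrum (𝓞 M) → 𝓞 M) (r : 𝓞 M),
      (∀ P, P ∈ S ↔ (7 : 𝓞 M) ∉ P.asIdeal ∧ ¬ XTS.GoodReduction E P) →
      (∀ P ∈ S, Generates P (p P)) → r ^ 2 = -7 →
      (∀ P ∈ S, ∀ Q ∈ S, P ≠ Q → edge P (p Q) = edge Q (p P)) ∧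
      (FiniteSha E ↔ (laplacian r S p).det ≠ 0) :=
  mod_two_sqrt hL.real hL.inert hM hr (Admissible.sqrt_odd hL hM hr) hE

end XTB
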